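import Pool.Agent.H44.MS.Basics

/-!
# mcs_modules, module B2d: the part without coprimality is small
-/

set_option autoImplicit false

namespace Pool.Agent.H14.MS

open Finset Real Pool.Agent.H44.MS

theorem b2d_c (M N : ℕ) (hM : 0 < M) :
    ∑ c ∈ Icc 1 N, ic (M * c ≤ N) ≤ (N : ℝ) / M := by
  classical
  rw [sum_ic, le_div_iff₀ (by exact_mod_cast hM)]
  have h1 : ((Icc 1 N).filter (fun c => M * c ≤ N)).card ≤ N / M := by
    have h2 : (Icc 1 N).filter (fun c => M * c ≤ N) ⊆ Icc 1 (N / M) := by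
      intro c hc
      rw [Finset.mem_filter, Finset.mem_Icc] at hc
      rw [Finset.mem_Icc]
      refine ⟨hc.1.1, (Nat.le_div_iff_mul_le hM).2 ?_⟩
      rw [mul_comm]
      exact hc.2
    refine (Finset.card_le_card h2).trans ?_
    rw [Nat.card_Icc, Nat.add_sub_cancel]
  have h3 : (N / M) * M ≤ N := Nat.div_mul_le_self N M
  have h4 := (Nat.mul_le_mul_right M h1).trans h3
  exact_mod_cast h4

/-- The pairs with a common prime factor. -/
noncomputable def b2d_W (z a b : ℕ) : ℝ := ic (Rough z a ∧ Rough z b ∧ ¬ Nat.Coprime a b)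

theorem b2d_W_le (z N a b : ℕ) (ha : a ∈ Icc 1 N) :
    b2d_W z a b ≤ ∑ p ∈ Ioc z N, ic (p ∣ a) * ic (p ∣ b) := by
  classical
  rw [Finset.mem_Icc] at ha
  have h0 : ∀ p ∈ Ioc z N, 0 ≤ ic (p ∣ a) * ic (p ∣ b) := fun p _ =>
    mul_nonneg (ic_nonneg _) (ic_nonneg _)
  by_cases h : Rough z a ∧ Rough z b ∧ ¬ Nat.Coprime a b
  · obtain ⟨h1, h2, h3⟩ := h
    obtain ⟨p, hp, hpa, hpb⟩ := Nat.Prime.not_coprime_iff_dvd.1 h3
    have hm : p ∈ Ioc z N := Finset.mem_Ioc.2 ⟨h1 p hp hpa,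
      (Nat.le_of_dvd (by omega) hpa).trans ha.2⟩
    refine le_trans ?_ (Finset.single_le_sum h0 hm)
    rw [ic_pos hpa, ic_pos hpb, mul_one]
    exact ic_le_one _
  · unfold b2d_W
    rw [ic_neg h]
    exact Finset.sum_nonneg h0

theorem b2d_dvd (p N : ℕ) (hp : 0 < p) :
    ∑ a ∈ Icc 1 N, ic (p ∣ a) / (a : ℝ) ≤ (∑ a ∈ Icc 1 N, 1 / (a : ℝ)) / p := by
  classical
  have h1 : ∑ a ∈ Icc 1 N, ic (p ∣ a) / (a : ℝ) =
      ∑ a ∈ (Icc 1 N).filter (fun a => p ∣ a), 1 / (a : ℝ) := by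
    rw [← sum_ic_mul (Icc 1 N) (fun a => p ∣ a) (fun a => 1 / (a : ℝ))]
    refine Finset.sum_congr rfl fun a _ => ?_
    rw [mul_one_div]
  have h2 : (Icc 1 N).filter (fun a => p ∣ a) ⊆ (Icc 1 N).image (fun a => p * a) := by
    intro a ha
    rw [Finset.mem_filter, Finset.mem_Icc] at ha
    obtain ⟨⟨h3, h4⟩, b, rfl⟩ := ha
    rw [Finset.mem_image]
    refine ⟨b, Finset.mem_Icc.2 ⟨?_, ?_⟩, rfl⟩
    · exact Nat.pos_of_mul_pos_left (by omega : 0 < p * b)
    · exact (Nat.le_mul_of_pos_left b hp).trans h4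
  rw [h1]
  refine (Finset.sum_le_sum_of_subset_of_nonneg h2 fun a _ _ => by positivity).trans ?_
  rw [Finset.sum_image (fun a _ b _ h => Nat.eq_of_mul_eq_mul_left hp h), Finset.sum_div]
  refine le_of_eq (Finset.sum_congr rfl fun a _ => ?_)
  push_cast
  rw [div_div, mul_comm]

theorem b2d_sq (z N : ℕ) (hz : 1 ≤ z) : ∑ p ∈ Ioc z N, 1 / (p : ℝ) ^ 2 ≤ 1 / (z : ℝ) := by
  rcases le_total z N with h | h
  · have h1 := sum_Ioc_inv_sq_le_sub (α := ℝ) (by omega : z ≠ 0) h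
    have h2 : ∑ p ∈ Ioc z N, 1 / (p : ℝ) ^ 2 = ∑ i ∈ Ioc z N, ((i : ℝ) ^ 2)⁻¹ :=
      Finset.sum_congr rfl fun p _ => one_div _
    rw [h2, one_div]
    refine h1.trans (sub_le_self _ (by positivity))
  · rw [Finset.Ioc_eq_empty (by omega), Finset.sum_empty]
    positivity

theorem b2d_ab (z N : ℕ) (hz : 1 ≤ z) :
    ∑ a ∈ Icc 1 N, ∑ b ∈ Icc 1 N, b2d_W z a b / ((a : ℝ) * b) ≤
      (∑ a ∈ Icc 1 N, 1 / (a : ℝ)) ^ 2 * (1 / z) := by
  classical
  set H := ∑ a ∈ Icc 1 N, 1 / (a : ℝ) with hH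
  have hH0 : 0 ≤ H := Finset.sum_nonneg fun a _ => by positivity
  calc ∑ a ∈ Icc 1 N, ∑ b ∈ Icc 1 N, b2d_W z a b / ((a : ℝ) * b)
      ≤ ∑ a ∈ Icc 1 N, ∑ b ∈ Icc 1 N, ∑ p ∈ Ioc z N,
          (ic (p ∣ a) / (a : ℝ)) * (ic (p ∣ b) / (b : ℝ)) := by
        refine Finset.sum_le_sum fun a ha => Finset.sum_le_sum fun b hb => ?_
        have h1 := div_le_div_of_nonneg_right (b2d_W_le z N a b ha)
          (by positivity : (0 : ℝ) ≤ (a : ℝ) * b)
        refine h1.trans (le_of_eq ?_)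
        rw [Finset.sum_div]
        exact Finset.sum_congr rfl fun p _ => (div_mul_div_comm _ _ _ _).symm
    _ = ∑ p ∈ Ioc z N, (∑ a ∈ Icc 1 N, ic (p ∣ a) / (a : ℝ)) *
          ∑ b ∈ Icc 1 N, ic (p ∣ b) / (b : ℝ) := by
        simp_rw [Finset.sum_mul_sum]
        rw [Finset.sum_comm (s := Ioc z N)]
        exact Finset.sum_congr rfl fun a _ => Finset.sum_comm
    _ ≤ ∑ p ∈ Ioc z N, H ^ 2 * (1 / (p : ℝ) ^ 2) := by
        refine Finset.sum_le_sum fun p hp => ?_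
        have hp0 : 0 < p := by
          rw [Finset.mem_Ioc] at hp
          omega
        have h1 := b2d_dvd p N hp0
        have h2 : 0 ≤ ∑ a ∈ Icc 1 N, ic (p ∣ a) / (a : ℝ) :=
          Finset.sum_nonneg fun a _ => div_nonneg (ic_nonneg _) (by positivity)
        rw [← hH] at h1
        refine (mul_le_mul h1 h1 h2 (by positivity)).trans (le_of_eq ?_)
        field_simp
    _ ≤ H ^ 2 * (1 / z) := by
        rw [← Finset.mul_sum]
        exact mul_le_mul_of_nonneg_left (b2d_sq z N hz) (by positivity)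

theorem b2d_point (z N s g a b : ℕ) (hs : s ∈ Icc 1 N) (hg : g ∈ Icc 1 N) (ha : a ∈ Icc 1 N)
    (hb : b ∈ Icc 1 N) :
    ∑ c ∈ Icc 1 N, ic ((Smooth z s ∧ Good 0 z s) ∧ Rough z g ∧ Rough z a ∧ Rough z b ∧
      Rough z c ∧ s * (g * a * b * c) ≤ N) * ic (¬ Nat.Coprime a b) ≤
      (1 / (s : ℝ)) * ((1 / (g : ℝ)) * ((b2d_W z a b / ((a : ℝ) * b)) * N)) := by
  rw [Finset.mem_Icc] at hs hg ha hb
  have h0 : 0 < s * (g * a * b) :=
    Nat.mul_pos (by omega) (Nat.mul_pos (Nat.mul_pos (by omega) (by omega)) (by omega))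
  calc _ ≤ ∑ c ∈ Icc 1 N, ic (s * (g * a * b) * c ≤ N) * b2d_W z a b := by
        refine Finset.sum_le_sum fun c _ => ?_
        unfold b2d_W
        rw [← ic_and, ← ic_and]
        refine ic_mono ?_
        rintro ⟨⟨-, -, h1, h2, -, h3⟩, h4⟩
        refine ⟨?_, h1, h2, h4⟩
        rw [mul_assoc]
        exact h3
    _ = (∑ c ∈ Icc 1 N, ic (s * (g * a * b) * c ≤ N)) * b2d_W z a b := by
        rw [Finset.sum_mul]
    _ ≤ (N : ℝ) / ((s * (g * a * b) : ℕ) : ℝ) * b2d_W z a b :=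
        mul_le_mul_of_nonneg_right (b2d_c _ N h0) (ic_nonneg _)
    _ = _ := by
        push_cast
        have h1 : (s : ℝ) ≠ 0 := by
          have : s ≠ 0 := by omega
          exact_mod_cast this
        have h2 : (g : ℝ) ≠ 0 := by
          have : g ≠ 0 := by omega
          exact_mod_cast this
        have h3 : (a : ℝ) ≠ 0 := by
          have : a ≠ 0 := by omega
          exact_mod_cast this
        have h4 : (b : ℝ) ≠ 0 := by
          have : b ≠ 0 := by omega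
          exact_mod_cast this
        field_simp

theorem pf_B2d : T_B2d := by
  intro z N hz
  set H := ∑ a ∈ Icc 1 N, 1 / (a : ℝ) with hH
  have hH0 : 0 ≤ H := Finset.sum_nonneg fun a _ => by positivity
  have hHl : H ≤ 1 + Real.log N := harmonic_le N
  unfold QS
  calc _ ≤ ∑ s ∈ Icc 1 N, ∑ g ∈ Icc 1 N, ∑ a ∈ Icc 1 N, ∑ b ∈ Icc 1 N,
        (1 / (s : ℝ)) * ((1 / (g : ℝ)) * ((b2d_W z a b / ((a : ℝ) * b)) * N)) :=
        Finset.sum_le_sum fun s hs => Finset.sum_le_sum fun g hg => Finset.sum_le_sum fun a ha =>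
          Finset.sum_le_sum fun b hb => b2d_point z N s g a b hs hg ha hb
    _ = H * (H * ((∑ a ∈ Icc 1 N, ∑ b ∈ Icc 1 N, b2d_W z a b / ((a : ℝ) * b)) * N)) := by
        simp_rw [← Finset.mul_sum, ← Finset.sum_mul]
        rw [← hH]
    _ ≤ H * (H * ((H ^ 2 * (1 / z)) * N)) := by
        refine mul_le_mul_of_nonneg_left (mul_le_mul_of_nonneg_left ?_ hH0) hH0
        exact mul_le_mul_of_nonneg_right (b2d_ab z N hz) (by positivity)
    _ = N * H ^ 4 * (1 / z) := by ring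
    _ ≤ N * (1 + Real.log N) ^ 4 * (2 / z) := by
        have h1 : H ^ 4 ≤ (1 + Real.log N) ^ 4 := pow_le_pow_left₀ hH0 hHl 4
        have h2 : (1 : ℝ) / z ≤ 2 / z := by
          have : (0 : ℝ) < z := by exact_mod_cast hz
          exact div_le_div_of_nonneg_right (by norm_num) this.le
        refine mul_le_mul (mul_le_mul_of_nonneg_left h1 (by positivity)) h2 (by positivity) ?_
        exact mul_nonneg (by positivity) (le_trans (by positivity) h1)

end Pool.Agent.H14.MS
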