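import Pool.Agent.H44.MS.Basics

/-!
# mcs_modules, module FD: `FF` is a divisor sum
-/

set_option autoImplicit false

namespace Pool.Agent.H14.MS

open Finset Real Pool.Agent.H44.MS

theorem fd_coprime {y s z E d e : ℕ}
    (h : lam (A3 y) s z d * (ic (Rough z e ∧ e ≤ E) * chi e) ≠ 0) :
    (An (A3 y) z d ∧ Ok s z d) ∧ (Rough z e ∧ e ≤ E) := by
  have h1 : lam (A3 y) s z d ≠ 0 := left_ne_zero_of_mul h
  have h2 : ic (Rough z e ∧ e ≤ E) ≠ 0 := left_ne_zero_of_mul (right_ne_zero_of_mul h)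
  exact ⟨ic_ne_zero (left_ne_zero_of_mul h1), ic_ne_zero h2⟩

theorem fd_one (y s z E m : ℕ) : FF y s z E m = Fc (cc y s z E) m := by
  classical
  rcases Nat.eq_zero_or_pos m with rfl | hm
  · simp [FF, Fc, th, RE]
  set F : ℕ × ℕ → ℝ := fun x => lam (A3 y) s z x.1 * (ic (Rough z x.2 ∧ x.2 ≤ E) * chi x.2)
    with hF
  have hL : FF y s z E m = 2 * ∑ x ∈ m.divisors ×ˢ m.divisors, F x := by
    unfold FF th RE
    rw [mul_assoc, Finset.sum_mul_sum, Finset.sum_product]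
  have hR : Fc (cc y s z E) m = 2 * ∑ k ∈ m.divisors, ∑ x ∈ k.divisorsAntidiagonal, F x := by
    unfold Fc cc
    rw [Finset.mul_sum]
  rw [hL, hR]
  congr 1
  have h1 : ∑ x ∈ m.divisors ×ˢ m.divisors, F x =
      ∑ x ∈ (m.divisors ×ˢ m.divisors).filter (fun x => x.1 * x.2 ∣ m), F x := by
    rw [Finset.sum_filter]
    refine Finset.sum_congr rfl fun x hx => ?_
    rw [Finset.mem_product, Nat.mem_divisors, Nat.mem_divisors] at hx
    by_cases hF0 : F x = 0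
    · rw [hF0]; simp
    · obtain ⟨⟨ha, -⟩, hr, -⟩ := fd_coprime hF0
      rw [if_pos ((coprime_of_smooth_rough (an_smooth ha) hr).mul_dvd_of_dvd_of_dvd hx.1.1
        hx.2.1)]
  rw [h1, ← Finset.sum_fiberwise_of_maps_to (g := fun x : ℕ × ℕ => x.1 * x.2) (t := m.divisors)
    (fun x hx => Nat.mem_divisors.2 ⟨(Finset.mem_filter.1 hx).2, hm.ne'⟩)]
  refine Finset.sum_congr rfl fun k hk => ?_
  rw [Nat.mem_divisors] at hk
  refine Finset.sum_congr ?_ fun _ _ => rfl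
  ext x
  simp only [Finset.mem_filter, Finset.mem_product, Nat.mem_divisors, Nat.mem_divisorsAntidiagonal]
  constructor
  · rintro ⟨-, h⟩
    refine ⟨h, ?_⟩
    rintro rfl
    exact hm.ne' (Nat.eq_zero_of_zero_dvd hk.1)
  · rintro ⟨h, -⟩
    refine ⟨⟨⟨⟨?_, hm.ne'⟩, ?_, hm.ne'⟩, ?_⟩, h⟩
    · exact (Dvd.intro _ h).trans hk.1
    · exact (Dvd.intro_left _ h).trans hk.1
    · rw [h]; exact hk.1

theorem fd_two (hLV : T_LV) (y s z E k : ℕ) (hz : 2 ≤ z) (hy : y ≤ z)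
    (h : cc y s z E k ≠ 0) : 1 ≤ k ∧ k ≤ z ^ (4 * s + 4) * E ∧ Rough y k := by
  have h1 := right_ne_zero_of_mul h
  obtain ⟨x, hx, hx0⟩ := Finset.exists_ne_zero_of_sum_ne_zero h1
  rw [Nat.mem_divisorsAntidiagonal] at hx
  obtain ⟨⟨ha, hok⟩, hr, hE⟩ := fd_coprime hx0
  refine ⟨Nat.pos_of_ne_zero hx.2, ?_, ?_⟩
  · rw [← hx.1]
    exact Nat.mul_le_mul ((hLV (A3 y) s z x.1 hz).1 ⟨ha, hok⟩) hE
  · rw [← hx.1, rough_mul]
    exact ⟨fun p hp hd => (ha.2 p hp hd).1.2, fun p hp hd => hy.trans_lt (hr p hp hd)⟩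

theorem fd_abs (hLV : T_LV) (y s z E k : ℕ) (hz : 2 ≤ z) :
    |cc y s z E k| ≤ 2 * ∑ x ∈ k.divisorsAntidiagonal,
      ic (x.1 ≤ z ^ (4 * s + 4) ∧ x.2 ≤ E) := by
  unfold cc
  rw [abs_mul, abs_of_nonneg (by norm_num : (0 : ℝ) ≤ 2)]
  refine mul_le_mul_of_nonneg_left ?_ (by norm_num)
  refine (Finset.abs_sum_le_sum_abs _ _).trans (Finset.sum_le_sum fun x hx => ?_)
  by_cases h0 : lam (A3 y) s z x.1 * (ic (Rough z x.2 ∧ x.2 ≤ E) * chi x.2) = 0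
  · rw [h0, abs_zero]
    exact ic_nonneg _
  · obtain ⟨⟨ha, hok⟩, hr, hE⟩ := fd_coprime h0
    have h2 : ic (x.1 ≤ z ^ (4 * s + 4) ∧ x.2 ≤ E) = 1 :=
      ic_pos ⟨(hLV (A3 y) s z x.1 hz).1 ⟨ha, hok⟩, hE⟩
    rw [h2, abs_mul, abs_mul]
    exact mul_le_one₀ (abs_lam_le _ _ _ _) (by positivity)
      (mul_le_one₀ (abs_ic_le _) (abs_nonneg _) (abs_chi_le _))

theorem fd_three (hLV : T_LV) (y s z E : ℕ) (hz : 2 ≤ z) :
    ∑ k ∈ Icc 1 (z ^ (4 * s + 4) * E), |cc y s z E k| ≤ 2 * (z : ℝ) ^ (4 * s + 4) * E := by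
  classical
  set D := z ^ (4 * s + 4) with hD
  refine (Finset.sum_le_sum fun k _ => fd_abs hLV y s z E k hz).trans ?_
  rw [← Finset.mul_sum, mul_assoc]
  refine mul_le_mul_of_nonneg_left ?_ (by norm_num)
  have h1 : ∀ k ∈ Icc 1 (D * E), ∑ x ∈ k.divisorsAntidiagonal, ic (x.1 ≤ D ∧ x.2 ≤ E) =
      ((((Icc 1 D ×ˢ Icc 1 E).filter (fun x => x.1 * x.2 = k)).card : ℕ) : ℝ) := by
    intro k hk
    rw [Finset.mem_Icc] at hk
    rw [sum_ic]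
    congr 2
    ext x
    simp only [Finset.mem_filter, Finset.mem_product, Finset.mem_Icc,
      Nat.mem_divisorsAntidiagonal]
    constructor
    · rintro ⟨⟨h1, h2⟩, h3, h4⟩
      have h5 : x.1 ≠ 0 := by rintro h; rw [h, zero_mul] at h1; omega
      have h6 : x.2 ≠ 0 := by rintro h; rw [h, mul_zero] at h1; omega
      exact ⟨⟨⟨by omega, h3⟩, by omega, h4⟩, h1⟩
    · rintro ⟨⟨⟨h1, h2⟩, h3, h4⟩, h5⟩
      exact ⟨⟨h5, by omega⟩, h2, h4⟩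
  rw [Finset.sum_congr rfl h1, ← Nat.cast_sum, ← Finset.card_eq_sum_card_fiberwise
    (f := fun x : ℕ × ℕ => x.1 * x.2) (s := Icc 1 D ×ˢ Icc 1 E) (t := Icc 1 (D * E))]
  · rw [Finset.card_product, Nat.card_Icc, Nat.card_Icc, Nat.add_sub_cancel, Nat.add_sub_cancel,
      hD]
    push_cast
    exact le_refl _
  · intro x hx
    have hx' := Finset.mem_product.1 (Finset.mem_coe.1 hx)
    rw [Finset.mem_Icc, Finset.mem_Icc] at hx'
    exact Finset.mem_coe.2 (Finset.mem_Icc.2 ⟨Nat.mul_pos hx'.1.1 hx'.2.1,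
      Nat.mul_le_mul hx'.1.2 hx'.2.2⟩)

theorem pf_FD (h : T_LV) : T_FD :=
  ⟨fd_one, fd_two h, fun y s z E hz => fd_three h y s z E hz⟩

end Pool.Agent.H14.MS
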